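import Pool.Graph.R_pool_sql_team_seeded_1acbe0a2.Y135.RF.Coord

set_option autoImplicit false
set_option maxHeartbeats 1000000

/-!
# Kedlaya's trick: étale coordinates in characteristic `p` can be made finite
-/

namespace Pool.Agent.H854.FE

open Pool.Agent.Y135

/-- Étale homomorphisms and square-zero ideals, in terms of ring homomorphisms: lifts exist. -/
theorem etale_lift {A B C : Type*} [CommRing A] [CommRing B] [CommRing C] (φ : A →+* B)
    (hφ : φ.FormallyEtale) (I : Ideal C) (hI : I ^ 2 = ⊥) (a : A →+* C) (u : B →+* C ⧸ I)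
    (h : (Ideal.Quotient.mk I).comp a = u.comp φ) :
    ∃ v : B →+* C, v.comp φ = a ∧ (Ideal.Quotient.mk I).comp v = u := by
  let := φ.toAlgebra
  let := a.toAlgebra
  have hφ' : Algebra.FormallyEtale A B := hφ
  let u' : B →ₐ[A] C ⧸ I := { u with commutes' := fun x => (RingHom.congr_fun h x).symm }
  obtain ⟨v, hv⟩ := (Algebra.FormallyEtale.comp_bijective (R := A) (A := B) I hI).2 u'
  refine ⟨v, ?_, ?_⟩
  · ext x
    exact v.commutes x
  · ext x
    exact AlgHom.congr_fun hv x

/-- Modifying étale coordinates by `p`-powers gives étale coordinates. -/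
theorem etale_shift (k : Type) [Field k] (p : ℕ) [Fact p.Prime] [CharP k p] {n : ℕ} {B : Type}
    [CommRing B] [Algebra k B] (x z : Fin n → B) (e : ℕ) (he : 0 < e)
    (hx : (MvPolynomial.aeval x : MvPolynomial (Fin n) k →ₐ[k] B).toRingHom.FormallyEtale) :
    (MvPolynomial.aeval (fun i => x i + z i ^ p ^ e) :
      MvPolynomial (Fin n) k →ₐ[k] B).toRingHom.FormallyEtale := by
  have hxf : (MvPolynomial.aeval x :
      MvPolynomial (Fin n) k →ₐ[k] B).toRingHom.FormallyUnramified := by
    let := (MvPolynomial.aeval x : MvPolynomial (Fin n) k →ₐ[k] B).toRingHom.toAlgebra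
    have h1 : Algebra.FormallyEtale (MvPolynomial (Fin n) k) B := hx
    change Algebra.FormallyUnramified _ _
    infer_instance
  have hunr := RF.unram_shift k p x z e he hxf
  let := (MvPolynomial.aeval (fun i => x i + z i ^ p ^ e) :
      MvPolynomial (Fin n) k →ₐ[k] B).toRingHom.toAlgebra
  have hunr' : Algebra.FormallyUnramified (MvPolynomial (Fin n) k) B := hunr
  change Algebra.FormallyEtale _ _
  rw [Algebra.FormallyEtale.iff_comp_bijective]
  intro C _ _ I hI
  refine ⟨Algebra.FormallyUnramified.comp_injective I hI, fun u => ?_⟩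
  have hB : ∀ i, algebraMap (MvPolynomial (Fin n) k) B (MvPolynomial.X i) =
      x i + z i ^ p ^ e := by
    intro i
    rw [RingHom.algebraMap_toAlgebra]
    simp
  have hBC : ∀ r, algebraMap (MvPolynomial (Fin n) k) B (MvPolynomial.C r) =
      algebraMap k B r := by
    intro i
    rw [RingHom.algebraMap_toAlgebra]
    simp
  rcases subsingleton_or_nontrivial C with hC | hC
  · refine ⟨{ toFun := fun _ => 0
              map_one' := Subsingleton.elim _ _
              map_mul' := fun _ _ => Subsingleton.elim _ _
              map_zero' := Subsingleton.elim _ _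
              map_add' := fun _ _ => Subsingleton.elim _ _
              commutes' := fun _ => Subsingleton.elim _ _ }, ?_⟩
    ext b
    have : Subsingleton (C ⧸ I) := (Ideal.Quotient.mk_surjective (I := I)).subsingleton
    exact Subsingleton.elim _ _
  have : CharP C p := charP_of_injective_ringHom
    ((algebraMap (MvPolynomial (Fin n) k) C).comp MvPolynomial.C).injective p
  choose α hα using fun i => Ideal.Quotient.mk_surjective (I := I) (u (z i))
  let a : MvPolynomial (Fin n) k →+* C :=
    MvPolynomial.eval₂Hom ((algebraMap (MvPolynomial (Fin n) k) C).comp MvPolynomial.C)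
      (fun i => algebraMap (MvPolynomial (Fin n) k) C (MvPolynomial.X i) - α i ^ p ^ e)
  have ha : (Ideal.Quotient.mk I).comp a = (u : B →+* C ⧸ I).comp
      (MvPolynomial.aeval x : MvPolynomial (Fin n) k →ₐ[k] B).toRingHom := by
    apply MvPolynomial.ringHom_ext
    · intro r
      have h1 := u.commutes (MvPolynomial.C r)
      rw [hBC] at h1
      have e1 : a (MvPolynomial.C r) = algebraMap (MvPolynomial (Fin n) k) C
        (MvPolynomial.C r) := by simp [a]
      have e2 : (MvPolynomial.aeval x : MvPolynomial (Fin n) k →ₐ[k] B).toRingHom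
        (MvPolynomial.C r) = algebraMap k B r := by simp
      rw [RingHom.comp_apply, RingHom.comp_apply, e1, e2]
      exact h1.symm
    · intro i
      have h1 := u.commutes (MvPolynomial.X i)
      rw [hB, map_add, map_pow, ← hα i] at h1
      have e1 : a (MvPolynomial.X i) = algebraMap (MvPolynomial (Fin n) k) C
        (MvPolynomial.X i) - α i ^ p ^ e := by simp [a]
      have e2 : (MvPolynomial.aeval x : MvPolynomial (Fin n) k →ₐ[k] B).toRingHom
        (MvPolynomial.X i) = x i := by simp
      rw [RingHom.comp_apply, RingHom.comp_apply, e1, e2, map_sub, map_pow]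
      exact (eq_sub_of_add_eq h1).symm
  obtain ⟨v, hv1, hv2⟩ := etale_lift _ hx I hI a (u : B →+* C ⧸ I) ha
  have hvx : ∀ i, v (x i) = algebraMap (MvPolynomial (Fin n) k) C (MvPolynomial.X i) -
      α i ^ p ^ e := by
    intro i
    have := RingHom.congr_fun hv1 (MvPolynomial.X i)
    simpa [a] using this
  have hvz : ∀ i, v (z i) ^ p ^ e = α i ^ p ^ e := by
    intro i
    have h1 : v (z i) - α i ∈ I := by
      rw [← Ideal.Quotient.eq, hα i]
      exact RingHom.congr_fun hv2 (z i)
    have h3 : (v (z i) - α i) ^ p ^ e ∈ I ^ 2 := by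
      have h4 : 2 ≤ p ^ e := by
        calc 2 ≤ p := (Fact.out : p.Prime).two_le
          _ = p ^ 1 := (pow_one p).symm
          _ ≤ p ^ e := Nat.pow_le_pow_right (Fact.out : p.Prime).pos he
      exact Ideal.pow_le_pow_right h4 (Ideal.pow_mem_pow h1 _)
    rw [hI, Submodule.mem_bot, sub_pow_char_pow] at h3
    exact sub_eq_zero.mp h3
  have hv3 : v.comp (algebraMap (MvPolynomial (Fin n) k) B) =
      algebraMap (MvPolynomial (Fin n) k) C := by
    apply MvPolynomial.ringHom_ext
    · intro r
      have := RingHom.congr_fun hv1 (MvPolynomial.C r)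
      rw [RingHom.comp_apply, hBC]
      simpa [a] using this
    · intro i
      rw [RingHom.comp_apply, hB, map_add, map_pow, hvx, hvz, sub_add_cancel]
  refine ⟨{ v with commutes' := fun r => RingHom.congr_fun hv3 r }, ?_⟩
  ext b
  exact RingHom.congr_fun hv2 b

/-- The finite étale map to an affine space: coordinates `t i = x i + z i ^ (p ^ e)`. -/
theorem exists_finite_coords (k : Type) [Field k] (p : ℕ) [Fact p.Prime] [CharP k p] {n : ℕ} {B : Type} [CommRing B] [IsDomain B]
    [Algebra k B] (x : Fin n → B)
    (hx : (MvPolynomial.aeval x : MvPolynomial (Fin n) k →ₐ[k] B).toRingHom.Etale) :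
    ∃ t : Fin n → B,
      (MvPolynomial.aeval t : MvPolynomial (Fin n) k →ₐ[k] B).toRingHom.FormallyEtale ∧
      (MvPolynomial.aeval t : MvPolynomial (Fin n) k →ₐ[k] B).toRingHom.IsIntegral ∧
      Algebra.FiniteType k B := by
  obtain ⟨htr, hft⟩ := RF.trdeg_of_etale k p x hx
  obtain ⟨s, φ, hφi, hφ⟩ := exists_integral_inj_algHom_of_fg k B
  -- the dimension
  have hs : s = n := by
    let := φ.toRingHom.toAlgebra
    have : IsScalarTower k (MvPolynomial (Fin s) k) B :=
      IsScalarTower.of_algebraMap_eq' φ.comp_algebraMap.symm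
    have : FaithfulSMul (MvPolynomial (Fin s) k) B :=
      (faithfulSMul_iff_algebraMap_injective _ _).mpr hφi
    have : Algebra.IsIntegral (MvPolynomial (Fin s) k) B := ⟨hφ⟩
    have h1 := trdeg_add_eq k (MvPolynomial (Fin s) k) (A := B)
    rw [MvPolynomial.trdeg_of_isDomain, trdeg_eq_zero, htr] at h1
    simpa using h1
  subst hs
  let K := FractionRing B
  have hinj : Function.Injective (algebraMap B K) := IsFractionRing.injective B K
  let z : Fin s → B := fun i => φ (MvPolynomial.X i)
  have hz : φ = MvPolynomial.aeval z := by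
    ext i
    simp [z]
  have hint : ∀ b : B, IsIntegral (Algebra.adjoin k
      (Set.range fun i => algebraMap B K (z i))) (algebraMap B K b) := by
    intro b
    obtain ⟨P, hP, hPb⟩ := hφ b
    have hmem : ∀ c : MvPolynomial (Fin s) k, algebraMap B K (φ c) ∈
        Algebra.adjoin k (Set.range fun i => algebraMap B K (z i)) := by
      intro c
      have : algebraMap B K (φ c) = MvPolynomial.aeval (fun i => algebraMap B K (z i)) c := by
        rw [hz, ← MvPolynomial.aeval_algebraMap_apply]
        rfl
      rw [this, ← MvPolynomial.aeval_range]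
      exact ⟨c, rfl⟩
    let χ : MvPolynomial (Fin s) k →+* Algebra.adjoin k
        (Set.range fun i => algebraMap B K (z i)) :=
      ((algebraMap B K).comp (φ : _ →+* B)).codRestrict _ hmem
    refine ⟨P.map χ, hP.map χ, ?_⟩
    rw [Polynomial.eval₂_map]
    have h2 : (algebraMap (Algebra.adjoin k (Set.range fun i => algebraMap B K (z i))) K).comp
        χ = (algebraMap B K).comp (φ : _ →+* B) := rfl
    rw [h2, ← Polynomial.hom_eval₂]
    have h3 : Polynomial.eval₂ (φ : _ →+* B) b P = 0 := hPb
    rw [h3, map_zero]
  obtain ⟨e, he, hV⟩ := RF.mem_of_shift k p (fun i => algebraMap B K (z i))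
    (fun i => algebraMap B K (x i)) (fun i => hint (x i))
  let t : Fin s → B := fun i => x i + z i ^ p ^ e
  have hunr := etale_shift k p x z e he hx.formallyEtale
  have hintt : (MvPolynomial.aeval t :
      MvPolynomial (Fin s) k →ₐ[k] B).toRingHom.IsIntegral := by
    let χ : MvPolynomial (Fin s) k →+* K := (algebraMap B K).comp
      (MvPolynomial.aeval t : MvPolynomial (Fin s) k →ₐ[k] B).toRingHom
    let := χ.toAlgebra
    let R : Subring K := (integralClosure (MvPolynomial (Fin s) k) K).toSubring
    have hRt : ∀ c, χ c ∈ R := fun c =>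
      (isIntegral_algebraMap : IsIntegral (MvPolynomial (Fin s) k)
        (algebraMap (MvPolynomial (Fin s) k) K c))
    have hRz : ∀ i, algebraMap B K (z i) ∈ R := by
      intro i
      by_contra hn
      obtain ⟨V, hRV, hnV⟩ := R.exists_le_valuationSubring_of_isIntegrallyClosedIn hn
      apply hnV
      refine hV V (fun c => ?_) (fun j => ?_) i
      · have h1 := hRV (hRt (MvPolynomial.C c))
        have h2 : χ (MvPolynomial.C c) = algebraMap k K c := by
          simp only [χ, RingHom.comp_apply]
          have h3 : (MvPolynomial.aeval t : MvPolynomial (Fin s) k →ₐ[k] B).toRingHom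
              (MvPolynomial.C c) = algebraMap k B c := by simp
          rw [h3, ← IsScalarTower.algebraMap_apply]
        rwa [h2] at h1
      have h1 := hRV (hRt (MvPolynomial.X j))
      simpa [χ, t] using h1
    have hRφ : ∀ c : MvPolynomial (Fin s) k, algebraMap B K (φ c) ∈ R := by
      intro c
      induction c using MvPolynomial.induction_on with
      | C a =>
        have : algebraMap B K (φ (MvPolynomial.C a)) = χ (MvPolynomial.C a) := by
          simp [χ, hz]
        rw [this]
        exact hRt _
      | add a b ha hb =>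
        rw [map_add, map_add]
        exact R.add_mem ha hb
      | mul_X a i ha =>
        rw [map_mul, map_mul]
        exact R.mul_mem ha (hRz i)
    intro b
    have hbR : IsIntegral R (algebraMap B K b) := by
      obtain ⟨P, hP, hPb⟩ := hφ b
      let χ' : MvPolynomial (Fin s) k →+* R :=
        ((algebraMap B K).comp (φ : _ →+* B)).codRestrict _ hRφ
      refine ⟨P.map χ', hP.map χ', ?_⟩
      rw [Polynomial.eval₂_map]
      have h2 : (algebraMap R K).comp χ' = (algebraMap B K).comp (φ : _ →+* B) := rfl
      rw [h2, ← Polynomial.hom_eval₂]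
      have h3 : Polynomial.eval₂ (φ : _ →+* B) b P = 0 := hPb
      rw [h3, map_zero]
    have hbR' : algebraMap B K b ∈ R := (Subring.isIntegrallyClosedIn_iff).mp inferInstance hbR
    obtain ⟨P, hP, hPb⟩ := hbR'
    refine ⟨P, hP, hinj ?_⟩
    rw [Polynomial.hom_eval₂, map_zero]
    exact hPb
  exact ⟨t, hunr, hintt, hft⟩

/-- Kedlaya's trick: a domain which is étale over a polynomial ring in `n` variables over a field of
characteristic `p` is also finite étale over a polynomial ring in `n` variables. -/
theorem exists_finite_etale (k : Type) [Field k] (p : ℕ) [Fact p.Prime] [CharP k p] {n : ℕ}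
    {B : Type} [CommRing B] [IsDomain B] [Algebra k B]
    (g : MvPolynomial (Fin n) k →ₐ[k] B) (hg : g.toRingHom.Etale) :
    ∃ h : MvPolynomial (Fin n) k →ₐ[k] B, h.toRingHom.Etale ∧ h.toRingHom.Finite := by
  have e1 : g = MvPolynomial.aeval (fun i => g (MvPolynomial.X i)) := by
    ext i
    simp
  obtain ⟨t, h1, h2, h3⟩ := exists_finite_coords k p (fun i => g (MvPolynomial.X i))
    (by rwa [← e1])
  refine ⟨MvPolynomial.aeval t, ?_, ?_⟩
  · let := (MvPolynomial.aeval t : MvPolynomial (Fin n) k →ₐ[k] B).toRingHom.toAlgebra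
    have : IsScalarTower k (MvPolynomial (Fin n) k) B :=
      IsScalarTower.of_algebraMap_eq' (MvPolynomial.aeval t).comp_algebraMap.symm
    have h4 : Algebra.FormallyEtale (MvPolynomial (Fin n) k) B := h1
    have h5 : Algebra.FiniteType (MvPolynomial (Fin n) k) B :=
      Algebra.FiniteType.of_restrictScalars_finiteType k _ _
    change Algebra.Etale (MvPolynomial (Fin n) k) B
    exact { formallyEtale := h4
            finitePresentation := Algebra.FinitePresentation.of_finiteType.mp h5 }
  · let := (MvPolynomial.aeval t : MvPolynomial (Fin n) k →ₐ[k] B).toRingHom.toAlgebra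
    have : IsScalarTower k (MvPolynomial (Fin n) k) B :=
      IsScalarTower.of_algebraMap_eq' (MvPolynomial.aeval t).comp_algebraMap.symm
    have h5 : Algebra.FiniteType (MvPolynomial (Fin n) k) B :=
      Algebra.FiniteType.of_restrictScalars_finiteType k _ _
    exact RingHom.IsIntegral.to_finite h2 h5

end Pool.Agent.H854.FE
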