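import Pool.Agent.H854.FE.Geo
import Pool.Graph.R_pool_sql_team_seeded_1acbe0a2.Y135.RF.Geom

set_option autoImplicit false
set_option maxHeartbeats 1000000

/-!
# Tate classes in the `ℓ`-adic cohomology of varieties over a field, and their coniveau
-/

open CategoryTheory Limits AlgebraicGeometry Pool.Agent.Y135

namespace Pool.Agent.H854.FE

section maps
variable {K : Type} [Field K] {X Y Z : Scheme.{0}} {f : X ⟶ Spec (.of K)} {g : Y ⟶ Spec (.of K)}
  {h : Z ⟶ Spec (.of K)}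

/-- The base change to the algebraic closure of a morphism of schemes over `K`. -/
noncomputable def gmap (j : Y ⟶ X) (e : j ≫ f = g) :
    geom g (AlgebraicClosure K) ⟶ geom f (AlgebraicClosure K) :=
  pullback.lift (pullback.fst _ _ ≫ j) (pullback.snd _ _)
    (by rw [Category.assoc, e, pullback.condition])

theorem gmap_fst (j : Y ⟶ X) (e : j ≫ f = g) :
    gmap j e ≫ pullback.fst _ _ = pullback.fst _ _ ≫ j := pullback.lift_fst _ _ _

theorem gmap_snd (j : Y ⟶ X) (e : j ≫ f = g) :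
    gmap j e ≫ pullback.snd _ _ = pullback.snd _ _ := pullback.lift_snd _ _ _

theorem gmap_isPullback (j : Y ⟶ X) (e : j ≫ f = g) :
    IsPullback (gmap j e) (pullback.fst _ _) (pullback.fst _ _) j := by
  refine IsPullback.of_right (h₁₂ := pullback.snd _ _) (h₂₂ := f)
    (v₁₃ := Spec.map (CommRingCat.ofHom (algebraMap K (AlgebraicClosure K)))) ?_ (gmap_fst j e)
    (IsPullback.of_hasPullback f _).flip
  rw [gmap_snd, e]
  exact (IsPullback.of_hasPullback g _).flip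

instance (j : Y ⟶ X) (e : j ≫ f = g) [WeaklyEtale j] : WeaklyEtale (gmap j e) :=
  MorphismProperty.of_isPullback (P := @WeaklyEtale) (gmap_isPullback j e).flip inferInstance

end maps

section coh
variable (ℓ : ℕ) [Fact ℓ.Prime] {K : Type} [Field K]

/-- The absolute Galois group of `K`. -/
def AbsGal (K : Type) [Field K] : Type := Gal(AlgebraicClosure K/K)

noncomputable instance absGalGroup (K : Type) [Field K] : Group (AbsGal K) :=
  AlgEquiv.aut

/-- The base change of `X` to the algebraic closure. -/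
noncomputable def bar {X : Scheme.{0}} (f : X ⟶ Spec (.of K)) : Scheme.{0} :=
  geom f (AlgebraicClosure K)

/-- The cohomology group `H^{2i}(X ⊗ K̄, ℚ̄_ℓ)` of a scheme `f : X ⟶ Spec K`. -/
def HH {X : Scheme.{0}} (f : X ⟶ Spec (.of K)) (i : ℕ) : Type 1 :=
  CohQ ℓ (bar f) (2 * i)

noncomputable instance hhGroup {X : Scheme.{0}} (f : X ⟶ Spec (.of K)) (i : ℕ) :
    AddCommGroup (HH ℓ f i) :=
  cohGroup ℓ (bar f) (2 * i)

noncomputable instance hhModule {X : Scheme.{0}} (f : X ⟶ Spec (.of K)) (i : ℕ) :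
    Module (PadicAlgCl ℓ) (HH ℓ f i) :=
  cohModule ℓ (bar f) (2 * i)

/-- The representation of the Galois group of `K` on `H^{2i}(X ⊗ K̄, ℚ̄_ℓ)`. -/
noncomputable def galH {X : Scheme.{0}} (f : X ⟶ Spec (.of K)) (i : ℕ) :
    Representation (PadicAlgCl ℓ) (AbsGal K) (HH ℓ f i) :=
  galRep f (AlgebraicClosure K) ℓ (2 * i)

/-- The cyclotomic character. -/
noncomputable def cycH (K : Type) [Field K] : AbsGal K →* (PadicAlgCl ℓ)ˣ :=
  cyc K (AlgebraicClosure K) ℓ

/-- The `i`-th power of the cyclotomic character. -/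
noncomputable def cycPow (i : ℕ) (σ : AbsGal K) : PadicAlgCl ℓ :=
  ((cycH ℓ K σ ^ i : (PadicAlgCl ℓ)ˣ) : PadicAlgCl ℓ)

/-- The action of `σ` on `H^{2i}(X ⊗ K̄, ℚ̄_ℓ(i))`: the action on `H^{2i}(X ⊗ K̄, ℚ̄_ℓ)` multiplied
by the `i`-th power of the cyclotomic character. -/
noncomputable def twAt {X : Scheme.{0}} (f : X ⟶ Spec (.of K)) (i : ℕ) (σ : AbsGal K) :
    Module.End (PadicAlgCl ℓ) (HH ℓ f i) :=
  cycPow ℓ i σ • galH ℓ f i σ

theorem twAt_one {X : Scheme.{0}} (f : X ⟶ Spec (.of K)) (i : ℕ) :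
    twAt ℓ f i 1 = 1 := by
  simp [twAt, cycPow]

theorem twAt_mul {X : Scheme.{0}} (f : X ⟶ Spec (.of K)) (i : ℕ) (σ τ : AbsGal K) :
    twAt ℓ f i (σ * τ) = twAt ℓ f i σ * twAt ℓ f i τ := by
  apply LinearMap.ext
  intro v
  simp only [twAt, cycPow, map_mul, mul_pow, Units.val_mul, LinearMap.smul_apply,
    Module.End.mul_apply, map_smul, smul_smul]
  congr 1
  exact mul_comm _ _

/-- The representation of the Galois group of `K` on `H^{2i}(X ⊗ K̄, ℚ̄_ℓ(i))`. -/
noncomputable def tw {X : Scheme.{0}} (f : X ⟶ Spec (.of K)) (i : ℕ) :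
    Representation (PadicAlgCl ℓ) (AbsGal K) (HH ℓ f i) where
  toFun := twAt ℓ f i
  map_one' := twAt_one ℓ f i
  map_mul' := twAt_mul ℓ f i

variable {ℓ}

/-- The pullback `H^{2i}(X ⊗ K̄, ℚ̄_ℓ) → H^{2i}(Y ⊗ K̄, ℚ̄_ℓ)` for a weakly étale morphism `j : Y ⟶ X`
of schemes over `K`. -/
noncomputable def restr {X Y : Scheme.{0}} {f : X ⟶ Spec (.of K)} {g : Y ⟶ Spec (.of K)}
    (j : Y ⟶ X) (e : j ≫ f = g) [WeaklyEtale j] (i : ℕ) :
    HH ℓ f i →ₗ[PadicAlgCl ℓ] HH ℓ g i :=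
  pullQ ℓ (gmap j e) (2 * i)

variable (ℓ)

/-- The class `v` is a Tate class: it is an element of `H^{2i}(X ⊗ K̄, ℚ̄_ℓ(i))^{Gal(K̄/K)}`. -/
def IsTate {X : Scheme.{0}} (f : X ⟶ Spec (.of K)) (i : ℕ) (v : HH ℓ f i) : Prop :=
  ∀ σ, tw ℓ f i σ v = v

variable {ℓ}

/-- The restriction to an open subscheme. -/
noncomputable def resO {X : Scheme.{0}} (f : X ⟶ Spec (.of K)) (V : X.Opens) (i : ℕ) :
    HH ℓ f i →ₗ[PadicAlgCl ℓ] HH ℓ (V.ι ≫ f) i :=
  restr V.ι rfl i

/-- The complement of `V` has codimension at least `c`. -/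
def CodimGE {X : Scheme.{0}} (V : X.Opens) (c : ℕ) : Prop :=
  ∀ x : X, x ∉ V → (c : ℕ∞) ≤ Order.coheight x

/-- The class `v` vanishes outside a closed subset of codimension at least `c`. -/
def Supp {X : Scheme.{0}} (f : X ⟶ Spec (.of K)) (i c : ℕ) (v : HH ℓ f i) : Prop :=
  ∃ V : X.Opens, CodimGE V c ∧ resO f V i v = 0

variable (ℓ)

/-- The conjecture `T^i(X)`: the Tate classes of degree `2i` are supported in codimension `i`. -/
def TateConj {X : Scheme.{0}} (f : X ⟶ Spec (.of K)) (i : ℕ) : Prop :=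
  ∀ v, IsTate ℓ f i v → Supp f i i v

/-- The Tate classes of degree `2i` vanish on non-empty open subsets. -/
def GenericVanishing {X : Scheme.{0}} (f : X ⟶ Spec (.of K)) (i : ℕ) : Prop :=
  ∀ v, IsTate ℓ f i v → ∃ W : X.Opens, Nonempty W ∧ resO f W i v = 0

/-- Semisimplicity of the eigenvalue one: a class in `H^{2i}(X ⊗ K̄, ℚ̄_ℓ(i))` that is Galois
invariant modulo the Tate classes is a Tate class. -/
def SemisimpleAt {X : Scheme.{0}} (f : X ⟶ Spec (.of K)) (i : ℕ) : Prop :=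
  ∀ v, (∀ σ, IsTate ℓ f i (tw ℓ f i σ v - v)) → IsTate ℓ f i v

end coh

end Pool.Agent.H854.FE
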