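import Pool.Agent.H854.FE.Coh

set_option autoImplicit false
set_option maxHeartbeats 1000000

/-!
# Functoriality of the pullback
-/

open CategoryTheory Limits AlgebraicGeometry Pool.Agent.Y135

namespace Pool.Agent.H854.FE

section maps
variable {K : Type} [Field K] {X Y Z : Scheme.{0}} {f : X ⟶ Spec (.of K)} {g : Y ⟶ Spec (.of K)}
  {h : Z ⟶ Spec (.of K)}

theorem gmap_comp (j : Y ⟶ X) (e : j ≫ f = g) (j' : Z ⟶ Y) (e' : j' ≫ g = h)
    (e'' : (j' ≫ j) ≫ f = h) : gmap (j' ≫ j) e'' = gmap j' e' ≫ gmap j e := by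
  apply pullback.hom_ext
  · rw [gmap_fst, Category.assoc, gmap_fst, ← Category.assoc (gmap j' e'), gmap_fst,
      Category.assoc]
  · rw [gmap_snd, Category.assoc, gmap_snd, gmap_snd]

theorem gmap_gal (j : Y ⟶ X) (e : j ≫ f = g) (σ : Gal(AlgebraicClosure K/K)) :
    galMor g σ ≫ gmap j e = gmap j e ≫ galMor f σ := by
  apply pullback.hom_ext
  · rw [Category.assoc, Category.assoc, galMor_fst, gmap_fst, ← Category.assoc, galMor_fst]
  · rw [Category.assoc, Category.assoc, galMor_snd, gmap_snd, galMor_snd, ← Category.assoc,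
      gmap_snd]

end maps

section coh
variable {ℓ : ℕ} [Fact ℓ.Prime] {K : Type} [Field K]

theorem restr_comp {X Y Z : Scheme.{0}} {f : X ⟶ Spec (.of K)} {g : Y ⟶ Spec (.of K)}
    {h : Z ⟶ Spec (.of K)} (j : Y ⟶ X) (e : j ≫ f = g) (j' : Z ⟶ Y) (e' : j' ≫ g = h)
    (j'' : Z ⟶ X) (e'' : j'' ≫ f = h) (he : j'' = j' ≫ j)
    [WeaklyEtale j] [WeaklyEtale j'] [WeaklyEtale j''] (i : ℕ) (v : HH ℓ f i) :
    restr j'' e'' i v = restr j' e' i (restr j e i v) := by
  have h1 : gmap j'' e'' = gmap j' e' ≫ gmap j e := by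
    subst he
    exact gmap_comp j e j' e' e''
  exact LinearMap.congr_fun (pullQ_comp ℓ _ _ _ h1 (2 * i)) v

theorem restr_tw {X Y : Scheme.{0}} {f : X ⟶ Spec (.of K)} {g : Y ⟶ Spec (.of K)}
    (j : Y ⟶ X) (e : j ≫ f = g) [WeaklyEtale j] (i : ℕ) (σ : AbsGal K)
    (v : HH ℓ f i) : restr j e i (tw ℓ f i σ v) = tw ℓ g i σ (restr j e i v) := by
  let s : Gal(AlgebraicClosure K/K) := σ
  have h1 := pullQ_comp ℓ (galMor g s) (gmap j e) _ rfl (2 * i)
  have h2 := pullQ_comp ℓ (gmap j e) (galMor f s) _ (gmap_gal j e s) (2 * i)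
  have h3 : restr j e i (galH ℓ f i σ v) = galH ℓ g i σ (restr j e i v) :=
    (LinearMap.congr_fun (h1.symm.trans h2) v).symm
  change restr j e i (cycPow ℓ i σ • galH ℓ f i σ v) =
    cycPow ℓ i σ • galH ℓ g i σ (restr j e i v)
  rw [map_smul, h3]

end coh

end Pool.Agent.H854.FE
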