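import Pool.Agent.H854.FE.Var

set_option autoImplicit false
set_option maxHeartbeats 1000000

/-!
# The statements, and the published theorems that are used
-/

open CategoryTheory Limits AlgebraicGeometry Pool.Agent.Y135 Pool.Agent.Y135.RF

namespace Pool.Agent.H854.FE

section rel
variable (ℓ : ℕ) [Fact ℓ.Prime] {K K' : Type} [Field K] [Field K'] {X X' : Scheme.{0}}
  (f : X ⟶ Spec (.of K)) (f' : X' ⟶ Spec (.of K'))

/-- The linear map `e` from the cohomology of `X` to that of `X'` maps Tate classes to Tate
classes, and a Tate class is supported in codimension `i` if its image is. -/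
def Transfers (i : ℕ) (e : HH ℓ f i →ₗ[PadicAlgCl ℓ] HH ℓ f' i) : Prop :=
  (∀ v, IsTate ℓ f i v → IsTate ℓ f' i (e v)) ∧ ∀ v, IsTate ℓ f i v → Supp f' i i (e v) → Supp f i i v

/-- There is a map as in the preceding definition. -/
def Dominates (i : ℕ) : Prop := ∃ e, Transfers ℓ f f' i e

end rel

/-- The linear map `g` from `H^{2i}(D ⊗ K̄, ℚ̄_ℓ(i))` to `H^{2i+2}(X ⊗ K̄, ℚ̄_ℓ(i+1))` is Galois
equivariant and maps classes supported in codimension `i` to classes supported in codimension
`i + 1`. Gysin maps of morphisms `D ⟶ X` with `dim X = dim D + 1` have this property. -/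
def GysinLike (ℓ : ℕ) [Fact ℓ.Prime] {K : Type} [Field K] {D X : Scheme.{0}}
    (d : D ⟶ Spec (.of K)) (f : X ⟶ Spec (.of K)) (i : ℕ)
    (g : HH ℓ d i →ₗ[PadicAlgCl ℓ] HH ℓ f (i + 1)) : Prop :=
  (∀ σ v, g (tw ℓ d i σ v) = tw ℓ f (i + 1) σ (g v)) ∧
    ∀ v, Supp d i i v → Supp f (i + 1) (i + 1) (g v)

/-- The field of rational functions in `r` variables over the prime field with `p` elements. -/
def RatField (p : ℕ) [Fact p.Prime] (r : ℕ) : Type :=
  FractionRing (MvPolynomial (Fin r) (ZMod p))

noncomputable instance ratFieldField (p : ℕ) [Fact p.Prime] (r : ℕ) : Field (RatField p r) :=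
  FractionRing.field (MvPolynomial (Fin r) (ZMod p))

section facts
variable (p ℓ : ℕ) [Fact p.Prime] [Fact ℓ.Prime]

/-- Finiteness of `ℓ`-adic cohomology, for the fields in the class `C`. -/
def FinitenessThm (C : ∀ (K : Type) [Field K], Prop) : Prop :=
  ∀ (K : Type) [Field K] [CharP K p] (X : Scheme.{0}) (f : X ⟶ Spec (.of K)) (n i : ℕ)
    [IsVar n f], C K → FiniteDimensional (PadicAlgCl ℓ) (HH ℓ f i)

/-- The action of the geometric Galois group on `H^{2i}(X ⊗ K̄, ℚ̄_ℓ(i))`. -/
noncomputable def geomRep {K : Type} [Field K] {X : Scheme.{0}} (f : X ⟶ Spec (.of K)) (i : ℕ) :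
    Representation (PadicAlgCl ℓ) (geomGal K) (HH ℓ f i) :=
  (tw ℓ f i).comp (geomGal K).subtype

/-- Deligne: the geometric Galois group acts semisimply on the cohomology of smooth projective
varieties. -/
def DeligneThm : Prop :=
  ∀ (K : Type) [Field K] [CharP K p] (X : Scheme.{0}) (f : X ⟶ Spec (.of K)) (n i : ℕ)
    [IsVar n f], IsFG K → IsProjectiveMor f → (geomRep ℓ f i).IsSemisimpleRepresentation

/-- Semi-purity, for the fields in the class `C`: the classes in `H^{2i}(X ⊗ K̄, ℚ̄_ℓ(i))` supported
in codimension `i` are combinations of the classes of the geometric components of the support, which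
are permuted by the Galois group. So they are fixed by a power of each element of the Galois
group. -/
def PurityThm (C : ∀ (K : Type) [Field K], Prop) : Prop :=
  ∀ (K : Type) [Field K] [CharP K p] (X : Scheme.{0}) (f : X ⟶ Spec (.of K)) (n i : ℕ)
    [IsVar n f], C K → ∀ v : HH ℓ f i, Supp f i i v →
    ∀ σ, ∃ m : ℕ, 0 < m ∧ tw ℓ f i (σ ^ m) v = v

/-- De Jong, Deligne, for the fields in the class `C`: after an alteration `X'` of `X`, over a finite
extension `K'` of `K`, the Tate classes of `X` that vanish on the non-empty open subset `V` become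
sums of images, under Gysin maps, of classes of smooth projective varieties `D a` of dimension
`dim X - 1`. -/
def GysinThm (C : ∀ (K : Type) [Field K], Prop) : Prop :=
  ∀ (K : Type) [Field K] [CharP K p] (X : Scheme.{0}) (f : X ⟶ Spec (.of K)) (n i : ℕ)
    [IsVar n f] (V : X.Opens) [Nonempty V], C K →
    ∃ (K' : Type) (_ : Field K') (_ : CharP K' p) (X' : Scheme.{0}) (f' : X' ⟶ Spec (.of K'))
      (e : HH ℓ f (i + 1) →ₗ[PadicAlgCl ℓ] HH ℓ f' (i + 1)) (m : ℕ) (D : Fin m → Scheme.{0})
      (d : ∀ a, D a ⟶ Spec (.of K'))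
      (g : ∀ a, HH ℓ (d a) i →ₗ[PadicAlgCl ℓ] HH ℓ f' (i + 1)),
      C K' ∧ Transfers ℓ f f' (i + 1) e ∧
      (∀ a, ∃ n', n' + 1 = n ∧ IsVar n' (d a) ∧ IsProjectiveMor (d a) ∧
        GysinLike ℓ (d a) f' i (g a)) ∧
      ∀ v, IsTate ℓ f (i + 1) v → resO f V (i + 1) v = 0 →
        ∃ w : ∀ a, HH ℓ (d a) i, e v = ∑ a, g a (w a)

/-- Published theorems on the `ℓ`-adic cohomology of smooth varieties over the fields of
characteristic `p ≠ ℓ` in the class `C`, which is the class of finite or of finitely generated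
fields. -/
structure BasicFacts (C : ∀ (K : Type) [Field K], Prop) : Prop where
  finite : FinitenessThm p ℓ C
  purity : PurityThm p ℓ C
  gysin : GysinThm p ℓ C

/-- Restriction of the field of constants: `K` is a finite separable extension of a field of
rational functions `K₀ = 𝔽_p(t_1, ..., t_r)`, and a variety over `K` is also a variety over `K₀`.
Its cohomology over `K₀` is the induced representation. -/
def InductionThm : Prop :=
  ∀ (K : Type) [Field K] [CharP K p] (X : Scheme.{0}) (f : X ⟶ Spec (.of K)) (n i : ℕ)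
    [IsVar n f], IsFG K → ∃ (r : ℕ) (X' : Scheme.{0}) (f' : X' ⟶ Spec (.of (RatField p r))),
      IsVar n f' ∧ Dominates ℓ f f' i

/-- The generic hyperplane section, a variety over the function field of the dual projective
space (weak Lefschetz theorem, projective bundle formula). -/
def HyperplaneThm : Prop :=
  ∀ (K : Type) [Field K] [CharP K p] (X : Scheme.{0}) (f : X ⟶ Spec (.of K)) (n i : ℕ)
    [IsVar (n + 1) f], IsFG K → 2 * i ≤ n →
    ∃ (K' : Type) (_ : Field K') (_ : CharP K' p) (X' : Scheme.{0}) (f' : X' ⟶ Spec (.of K')),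
      IsFG K' ∧ IsVar n f' ∧ Dominates ℓ f f' i

/-- The product with the projective line. -/
def ProductThm : Prop :=
  ∀ (K : Type) [Field K] [CharP K p] (X : Scheme.{0}) (f : X ⟶ Spec (.of K)) (n i : ℕ)
    [IsVar n f], IsFG K →
    ∃ (X' : Scheme.{0}) (f' : X' ⟶ Spec (.of K)), IsVar (n + 1) f' ∧ Dominates ℓ f f' i

/-- Published theorems on the `ℓ`-adic cohomology of smooth varieties over finitely generated
fields of characteristic `p ≠ ℓ`. -/
structure KnownFacts : Prop extends BasicFacts p ℓ (fun K _ => IsFG K) where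
  deligne : DeligneThm p ℓ
  induction : InductionThm p ℓ
  hyperplane : HyperplaneThm p ℓ
  product : ProductThm p ℓ

end facts

/-- The conjecture `T^i` for smooth varieties of dimension `n` over finitely generated fields of
characteristic `p`. -/
def TateDim (p ℓ : ℕ) [Fact ℓ.Prime] (i n : ℕ) : Prop :=
  ∀ (K : Type) [Field K] [CharP K p] (X : Scheme.{0}) (f : X ⟶ Spec (.of K)) [IsVar n f],
    IsFG K → TateConj ℓ f i

/-- The conjecture `T^i` for all smooth varieties over finitely generated fields of characteristic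
`p`. -/
def TateAll (p ℓ : ℕ) [Fact ℓ.Prime] (i : ℕ) : Prop := ∀ n, TateDim p ℓ i n

/-- Semisimplicity of the eigenvalue one in codimension `i` for all smooth varieties over finitely
generated fields of characteristic `p`. -/
def SemisimpleAll (p ℓ : ℕ) [Fact ℓ.Prime] (i : ℕ) : Prop :=
  ∀ (K : Type) [Field K] [CharP K p] (X : Scheme.{0}) (f : X ⟶ Spec (.of K)) (n : ℕ) [IsVar n f],
    IsFG K → SemisimpleAt ℓ f i

/-- Each Tate class of degree `2i` of an integral finite étale covering `U` of the affine space of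
dimension `2i` over a field of rational functions `𝔽_p(t_1, ..., t_r)` vanishes on a non-empty open
subset of `U`. -/
def CoverVanishing (p ℓ : ℕ) [Fact p.Prime] [Fact ℓ.Prime] (i : ℕ) : Prop :=
  ∀ (r : ℕ) (U : Scheme.{0}) (g : U ⟶ affSp (RatField p r) (2 * i)) [IsIntegral U] [Etale g]
    [IsFinite g], GenericVanishing ℓ (g ≫ affStr (RatField p r) (2 * i)) i

end Pool.Agent.H854.FE
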