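import Pool.Agent.H854.FE.Alg

set_option autoImplicit false
set_option maxHeartbeats 1000000

/-!
# Open subschemes that are finite étale over affine space
-/

open CategoryTheory Limits AlgebraicGeometry

namespace Pool.Agent.H854.FE

/-- The affine space of dimension `n` over `k`. -/
noncomputable abbrev affSp (k : Type) [Field k] (n : ℕ) : Scheme.{0} :=
  Spec (.of (MvPolynomial (Fin n) k))

/-- The structure morphism of the affine space. -/
noncomputable abbrev affStr (k : Type) [Field k] (n : ℕ) : affSp k n ⟶ Spec (.of k) :=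
  Spec.map (CommRingCat.ofHom (MvPolynomial.C : k →+* MvPolynomial (Fin n) k))

/-- A non-empty open subscheme of a smooth integral scheme of dimension `n` over a field of
characteristic `p` is finite étale over the affine space of dimension `n`. -/
theorem exists_open_finite_etale (p : ℕ) [Fact p.Prime] (n : ℕ) (k : Type) [Field k] [CharP k p]
    (X : Scheme.{0}) [IsIntegral X] (f : X ⟶ Spec (.of k)) [SmoothOfRelativeDimension n f] :
    ∃ (V : X.Opens) (_ : Nonempty V) (g : (V : Scheme.{0}) ⟶ affSp k n),
      g ≫ affStr k n = V.ι ≫ f ∧ Etale g ∧ IsFinite g := by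
  obtain ⟨U, hU, V, hV, hx, e, hf⟩ :=
    SmoothOfRelativeDimension.exists_isStandardSmoothOfRelativeDimension (n := n) (f := f)
      (genericPoint X)
  have hUtop : U = ⊤ := by
    have : Subsingleton (Spec (.of k)) := inferInstanceAs (Subsingleton (PrimeSpectrum k))
    ext y
    simp only [TopologicalSpace.Opens.coe_top, Set.mem_univ, iff_true]
    have h1 : f (genericPoint X) ∈ U := e hx
    rw [Subsingleton.elim y (f (genericPoint X))]
    exact h1
  subst hUtop
  have hVn : Nonempty V := ⟨⟨_, hx⟩⟩
  refine ⟨V, hVn, ?_⟩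
  let c : k ≃+* Γ(Spec (.of k), ⊤) :=
    (Scheme.ΓSpecIso (.of k)).symm.commRingCatIsoToRingEquiv
  have h3 := hf.comp (RingHom.IsStandardSmoothOfRelativeDimension.equiv c)
  rw [add_zero] at h3
  obtain ⟨g, hg1, hg⟩ := h3.exists_etale_mvPolynomial
  let a1 : Algebra k Γ(X, V) := (g.comp MvPolynomial.C).toAlgebra
  let g' : MvPolynomial (Fin n) k →ₐ[k] Γ(X, V) := { g with commutes' := fun r => rfl }
  have hg' : g'.toRingHom.Etale := hg
  obtain ⟨h, hh1, hh2⟩ := exists_finite_etale k p g' hg'
  have hcomp : h.toRingHom.comp MvPolynomial.C = g.comp MvPolynomial.C := h.comp_algebraMap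
  refine ⟨hV.isoSpec.hom ≫ Spec.map (CommRingCat.ofHom h.toRingHom), ?_, ?_, ?_⟩
  · rw [Category.assoc, ← Spec.map_comp, ← CommRingCat.ofHom_comp, hcomp, hg1]
    have h5 := (isAffineOpen_top (Spec (.of k))).SpecMap_appLE_fromSpec f hV e
    rw [IsAffineOpen.fromSpec_top, Scheme.isoSpec_Spec_inv] at h5
    have h6 : Spec.map (CommRingCat.ofHom ((f.appLE ⊤ V e).hom.comp (c : k →+* _))) =
      Spec.map (f.appLE ⊤ V e) ≫ Spec.map (Scheme.ΓSpecIso (.of k)).inv := by
      rw [← Spec.map_comp]
      rfl
    rw [h6, h5, ← Category.assoc, IsAffineOpen.isoSpec_hom_fromSpec]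
  · have : Etale (Spec.map (CommRingCat.ofHom h.toRingHom)) := by
      rw [HasRingHomProperty.Spec_iff (P := @Etale)]
      exact hh1
    infer_instance
  · have : IsFinite (Spec.map (CommRingCat.ofHom h.toRingHom)) := by
      rw [IsFinite.SpecMap_iff]
      exact hh2
    infer_instance

end Pool.Agent.H854.FE
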