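import Mathlib

set_option autoImplicit false
set_option maxHeartbeats 1000000

/-!
# Lifting invariant vectors
-/

namespace Pool.Agent.H854.FE

section comm
variable {k M : Type*} [Field k] [AddCommGroup M] [Module k M]

/-- Commuting endomorphisms of a vector space of finite dimension: if no vector outside the common
kernel is mapped into it by all of them, then the vectors that are killed modulo a stable subspace
lift to the common kernel. -/
theorem lift_comm [FiniteDimensional k M] (S : Set (Module.End k M))
    (hc : ∀ a ∈ S, ∀ b ∈ S, a * b = b * a)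
    (hS : ∀ v, (∀ s ∈ S, ∀ t ∈ S, t (s v) = 0) → ∀ s ∈ S, s v = 0)
    (N : Submodule k M) (hN : ∀ s ∈ S, ∀ v ∈ N, s v ∈ N) (w : M) (hw : ∀ s ∈ S, s w ∈ N) :
    ∃ w', (∀ s ∈ S, s w' = 0) ∧ w - w' ∈ N := by
  let A := Algebra.adjoin k S
  let cr : CommRing A := Algebra.adjoinCommRingOfComm k hc
  have hfin : Module.Finite k A := inferInstance
  have hart : IsArtinianRing A := isArtinian_of_tower k (inferInstance : IsArtinian k A)
  have hnoe : IsNoetherianRing A := isNoetherian_of_tower k (inferInstance : IsNoetherian k A)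
  let I : Ideal A := Ideal.span {a | (a : Module.End k M) ∈ S}
  -- the algebra preserves `N`
  have hAN : ∀ a : A, ∀ v ∈ N, (a : Module.End k M) v ∈ N := by
    rintro ⟨a, ha⟩
    induction ha using Algebra.adjoin_induction with
    | mem x hx => exact hN x hx
    | algebraMap r =>
      intro v hv
      simpa [Module.algebraMap_end_apply] using N.smul_mem r hv
    | add x y _ _ hx hy =>
      intro v hv
      exact N.add_mem (hx v hv) (hy v hv)
    | mul x y _ _ hx hy =>
      intro v hv
      exact hx _ (hy v hv)
  -- the ideal maps `w` to `N`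
  have hIw : ∀ a ∈ I, (a : Module.End k M) w ∈ N := by
    intro a ha
    induction ha using Submodule.span_induction with
    | mem x hx => exact hw _ hx
    | zero => simp
    | add x y _ _ hx hy =>
      have : ((x + y : A) : Module.End k M) w = (x : Module.End k M) w + (y : Module.End k M) w :=
        rfl
      rw [this]
      exact N.add_mem hx hy
    | smul c x _ hx =>
      have : ((c • x : A) : Module.End k M) w = (c : Module.End k M) ((x : Module.End k M) w) :=
        rfl
      rw [this]
      exact hAN c _ hx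
  -- the powers of the ideal become stationary
  obtain ⟨n, hn⟩ := IsArtinian.monotone_stabilizes
    (⟨(I ^ ·), @Ideal.pow_le_pow_right _ _ I⟩ : ℕ →o (Ideal A)ᵒᵈ)
  have hn' : ∀ m, n ≤ m → I ^ n = I ^ m := hn
  have hid : IsIdempotentElem (I ^ (n + 1)) := by
    change I ^ (n + 1) * I ^ (n + 1) = I ^ (n + 1)
    rw [← pow_add, ← hn' (n + 1 + (n + 1)) (by omega), ← hn' (n + 1) (by omega)]
  obtain ⟨e, he, hIe⟩ := (Ideal.isIdempotentElem_iff_of_fg _ (IsNoetherian.noetherian _)).mp hid
  have heI : e ∈ I := by
    have h1 : e ∈ I ^ (n + 1) := by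
      rw [hIe]
      exact Submodule.mem_span_singleton_self e
    exact Ideal.pow_le_self (Nat.succ_ne_zero n) h1
  -- the ideal acts trivially on the image of `1 - e`
  have key : ∀ m : ℕ, (∀ a ∈ I ^ (m + 1), ∀ v : M, (a : Module.End k M)
      (((1 - e : A) : Module.End k M) v) = 0) →
      ∀ a ∈ I, ∀ v : M, (a : Module.End k M) (((1 - e : A) : Module.End k M) v) = 0 := by
    intro m
    induction m with
    | zero =>
      intro h a ha v
      exact h a (by simpa using ha) v
    | succ m ih =>
      intro h
      refine ih fun a ha v => ?_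
      rw [pow_succ] at ha
      refine Submodule.mul_induction_on ha (fun b hb c hc' => ?_) (fun x y hx hy => ?_)
      · induction hc' using Submodule.span_induction with
        | mem c hcS =>
          have h1 : ((b * c : A) : Module.End k M) (((1 - e : A) : Module.End k M) v) =
              (c : Module.End k M) ((b : Module.End k M) (((1 - e : A) : Module.End k M) v)) := by
            rw [mul_comm b c]
            rfl
          rw [h1]
          refine hS _ (fun s hs t ht => ?_) _ hcS
          have h2 := h (⟨t, Algebra.subset_adjoin ht⟩ * (⟨s, Algebra.subset_adjoin hs⟩ * b)) ?_ v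
          · exact h2
          · rw [pow_succ', pow_succ']
            exact Ideal.mul_mem_mul (Ideal.subset_span ht)
              (Ideal.mul_mem_mul (Ideal.subset_span hs) hb)
        | zero => rw [mul_zero]; rfl
        | add x y _ _ hx hy =>
          have h1 : ((b * (x + y) : A) : Module.End k M) (((1 - e : A) : Module.End k M) v) =
              ((b * x : A) : Module.End k M) (((1 - e : A) : Module.End k M) v) +
              ((b * y : A) : Module.End k M) (((1 - e : A) : Module.End k M) v) := by
            rw [mul_add]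
            rfl
          rw [h1, hx, hy, add_zero]
        | smul c x _ hx =>
          have h1 : ((b * (c • x) : A) : Module.End k M) (((1 - e : A) : Module.End k M) v) =
              (c : Module.End k M)
                (((b * x : A) : Module.End k M) (((1 - e : A) : Module.End k M) v)) := by
            rw [smul_eq_mul, mul_left_comm]
            rfl
          rw [h1, hx, map_zero]
      · have h1 : ((x + y : A) : Module.End k M) (((1 - e : A) : Module.End k M) v) =
            (x : Module.End k M) (((1 - e : A) : Module.End k M) v) +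
            (y : Module.End k M) (((1 - e : A) : Module.End k M) v) := rfl
        rw [h1, hx, hy, add_zero]
  have h0 : ∀ a ∈ I, ∀ v : M, (a : Module.End k M) (((1 - e : A) : Module.End k M) v) = 0 := by
    refine key n fun a ha v => ?_
    rw [hIe] at ha
    obtain ⟨c, rfl⟩ := Submodule.mem_span_singleton.mp ha
    have h1 : (((c • e : A)) : Module.End k M) (((1 - e : A) : Module.End k M) v) =
        ((c * (e * (1 - e)) : A) : Module.End k M) v := by
      rw [smul_eq_mul, ← mul_assoc]
      rfl
    rw [h1, mul_sub, mul_one, he.eq, sub_self, mul_zero]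
    rfl
  refine ⟨((1 - e : A) : Module.End k M) w, fun s hs => ?_, ?_⟩
  · exact h0 ⟨s, Algebra.subset_adjoin hs⟩ (Ideal.subset_span hs) w
  · have h1 : w - ((1 - e : A) : Module.End k M) w = (e : Module.End k M) w := by
      have h2 : ((1 - e : A) : Module.End k M) w = w - (e : Module.End k M) w := rfl
      rw [h2, sub_sub_cancel]
    rw [h1]
    exact hIw e heI

end comm

section rep
variable {k G V : Type*} [Field k] [Group G] [AddCommGroup V] [Module k V]

/-- Vectors that are invariant modulo a stable subspace lift to invariant vectors. -/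
def LI (ρ : Representation k G V) : Prop :=
  ∀ N : Submodule k V, (∀ σ, ∀ v ∈ N, ρ σ v ∈ N) → ∀ w, (∀ σ, ρ σ w - w ∈ N) →
    ∃ b, (∀ σ, ρ σ b = b) ∧ w - b ∈ N

/-- A representation of finite dimension whose restriction to a normal subgroup with abelian
quotient is semisimple has the lifting property if no vector outside the invariants is invariant
modulo the invariants. -/
theorem lift_rep [FiniteDimensional k V] (ρ : Representation k G V) (P : Subgroup G)
    (hPn : P.Normal) (hP : ∀ σ τ : G, σ * τ * (τ * σ)⁻¹ ∈ P)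
    (hss : Representation.IsSemisimpleRepresentation
      (ρ.comp P.subtype : Representation k P V))
    (hS : ∀ v, (∀ σ τ, ρ τ (ρ σ v - v) = ρ σ v - v) → ∀ σ, ρ σ v = v) : LI ρ := by
  intro N hN w hw
  -- step 1: an element fixed by `P`
  obtain ⟨w₁, hw₁, hw₁'⟩ : ∃ w₁, (∀ σ ∈ P, ρ σ w₁ = w₁) ∧ w - w₁ ∈ N := by
    let W : Subrepresentation (ρ.comp P.subtype : Representation k P V) :=
      { toSubmodule := N
        apply_mem_toSubmodule := fun g v hv => hN _ v hv }
    obtain ⟨W', hW'⟩ := hss.exists_isCompl W
    have hsup : W.toSubmodule ⊔ W'.toSubmodule = ⊤ :=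
      congrArg Subrepresentation.toSubmodule hW'.sup_eq_top
    have hinf : W.toSubmodule ⊓ W'.toSubmodule = ⊥ :=
      congrArg Subrepresentation.toSubmodule hW'.inf_eq_bot
    have hw2 : w ∈ W.toSubmodule ⊔ W'.toSubmodule := by
      rw [hsup]
      trivial
    obtain ⟨a, ha, b, hb, hab⟩ := Submodule.mem_sup.mp hw2
    have ha' : a ∈ N := ha
    refine ⟨b, fun σ hσ => ?_, ?_⟩
    · have h1 : ρ σ b - b ∈ W'.toSubmodule :=
        W'.toSubmodule.sub_mem (W'.apply_mem_toSubmodule ⟨σ, hσ⟩ hb) hb
      have h2 : ρ σ b - b ∈ W.toSubmodule := by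
        have h3 : ρ σ b - b = (ρ σ w - w) - (ρ σ a - a) := by
          rw [← hab, map_add]
          abel
        rw [h3]
        exact N.sub_mem (hw σ) (N.sub_mem (hN σ a ha') ha')
      have h4 : ρ σ b - b ∈ W.toSubmodule ⊓ W'.toSubmodule := ⟨h2, h1⟩
      rw [hinf, Submodule.mem_bot] at h4
      exact sub_eq_zero.mp h4
    · rw [← hab, add_sub_cancel_right]
      exact ha'
  -- step 2: the invariants of `P`
  let M : Submodule k V :=
    { carrier := {v | ∀ σ ∈ P, ρ σ v = v}
      add_mem' := fun {a b} ha hb σ hσ => by rw [map_add, ha σ hσ, hb σ hσ]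
      zero_mem' := fun σ _ => map_zero _
      smul_mem' := fun c a ha σ hσ => by rw [map_smul, ha σ hσ] }
  have hM : ∀ σ, ∀ v ∈ M, ρ σ v ∈ M := by
    intro σ v hv τ hτ
    have h1 : τ * σ = σ * (σ⁻¹ * τ * σ) := by group
    have h2 : σ⁻¹ * τ * σ ∈ P := by
      have := hPn.conj_mem τ hτ σ⁻¹
      simpa using this
    rw [← Module.End.mul_apply, ← map_mul, h1, map_mul, Module.End.mul_apply, hv _ h2]
  have hcomm : ∀ σ τ, ∀ v ∈ M, ρ σ (ρ τ v) = ρ τ (ρ σ v) := by
    intro σ τ v hv
    have h1 : σ * τ = (σ * τ * (τ * σ)⁻¹) * (τ * σ) := by group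
    have h2 : ρ (τ * σ) v ∈ M := hM _ v hv
    rw [← Module.End.mul_apply, ← map_mul, h1, map_mul, Module.End.mul_apply,
      h2 _ (hP σ τ), map_mul, Module.End.mul_apply]
  let T : G → Module.End k M := fun σ =>
    (ρ σ).restrict (hM σ) - 1
  have hT : ∀ σ (v : M), ((T σ v : M) : V) = ρ σ v - v := fun σ v => rfl
  obtain ⟨w', h1, h2⟩ := lift_comm (Set.range T)
    (by
      rintro _ ⟨σ, rfl⟩ _ ⟨τ, rfl⟩
      apply LinearMap.ext
      intro v
      apply Subtype.ext
      rw [Module.End.mul_apply, Module.End.mul_apply, hT, hT, hT, hT, map_sub, map_sub,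
        hcomm σ τ v v.2]
      abel)
    (by
      intro v hv
      rintro _ ⟨σ, rfl⟩
      apply Subtype.ext
      rw [hT]
      refine sub_eq_zero.mpr (hS v (fun σ τ => ?_) σ)
      have := congrArg Subtype.val (hv _ ⟨σ, rfl⟩ _ ⟨τ, rfl⟩)
      rw [hT, hT] at this
      exact sub_eq_zero.mp this)
    (N.comap M.subtype)
    (by
      rintro _ ⟨σ, rfl⟩ v hv
      change ((T σ v : M) : V) ∈ N
      rw [hT]
      exact N.sub_mem (hN σ v hv) hv)
    ⟨w₁, hw₁⟩
    (by
      rintro _ ⟨σ, rfl⟩
      change ((T σ _ : M) : V) ∈ N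
      rw [hT]
      have h3 : ρ σ w₁ - w₁ = (ρ σ w - w) - (ρ σ (w - w₁) - (w - w₁)) := by
        rw [map_sub]
        abel
      change ρ σ w₁ - w₁ ∈ N
      rw [h3]
      exact N.sub_mem (hw σ) (N.sub_mem (hN σ _ hw₁') hw₁'))
  refine ⟨w', fun σ => ?_, ?_⟩
  · have := congrArg Subtype.val (h1 _ ⟨σ, rfl⟩)
    rw [hT] at this
    exact sub_eq_zero.mp this
  · have h3 : w - (w' : V) = (w - w₁) + (w₁ - w') := by abel
    rw [h3]
    exact N.add_mem hw₁' h2

end rep

section sum
variable {k G T ι : Type*} {V : ι → Type*} [Field k] [Group G] [AddCommGroup T] [Module k T]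
  [∀ a, AddCommGroup (V a)] [∀ a, Module k (V a)]

/-- Invariant elements of a finite sum of images of representations with the lifting property are
sums of images of invariant elements. -/
theorem sum_lift (ρ : ∀ a, Representation k G (V a)) (h : ∀ a, LI (ρ a))
    (τ : Representation k G T) (g : ∀ a, V a →ₗ[k] T)
    (hg : ∀ a σ v, g a (ρ a σ v) = τ σ (g a v)) (s : Finset ι) (t : T)
    (ht : ∀ σ, τ σ t = t) (hts : t ∈ ⨆ a ∈ s, LinearMap.range (g a)) :
    t ∈ ⨆ a ∈ s, Submodule.span k {x | ∃ b, (∀ σ, ρ a σ b = b) ∧ g a b = x} := by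
  classical
  induction s using Finset.induction_on generalizing t with
  | empty => simpa using hts
  | insert a s ha ih =>
    rw [Finset.iSup_insert] at hts ⊢
    obtain ⟨x, ⟨z, rfl⟩, t', ht', hxt⟩ := Submodule.mem_sup.mp hts
    set R : Submodule k T := ⨆ a ∈ s, LinearMap.range (g a) with hR
    have hRst : ∀ σ, ∀ v ∈ R, τ σ v ∈ R := by
      intro σ v hv
      have h1 : R ≤ R.comap (τ σ) := by
        rw [hR]
        refine iSup₂_le fun a' ha' => ?_
        rintro _ ⟨y, rfl⟩
        change τ σ (g a' y) ∈ ⨆ a ∈ s, LinearMap.range (g a)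
        rw [← hg]
        have h2 : LinearMap.range (g a') ≤ ⨆ a ∈ s, LinearMap.range (g a) :=
          le_iSup₂_of_le a' ha' le_rfl
        exact h2 ⟨_, rfl⟩
      exact h1 hv
    obtain ⟨b, hb, hzb⟩ := h a (R.comap (g a)) (fun σ v hv => by
      change g a (ρ a σ v) ∈ R
      rw [hg]
      exact hRst σ _ hv) z (fun σ => by
      change g a (ρ a σ z - z) ∈ R
      have h1 : g a (ρ a σ z - z) = t' - τ σ t' := by
        have h2 : g a z = t - t' := by rw [← hxt, add_sub_cancel_right]
        rw [map_sub, hg, h2, map_sub, ht σ]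
        abel
      rw [h1]
      exact R.sub_mem ht' (hRst σ _ ht'))
    have h3 : t - g a b ∈ R := by
      have h4 : t - g a b = g a (z - b) + t' := by
        rw [← hxt, map_sub]
        abel
      rw [h4]
      exact R.add_mem hzb ht'
    have h5 := ih (t - g a b) (fun σ => by rw [map_sub, ht σ, ← hg, hb σ]) h3
    have h6 : t = g a b + (t - g a b) := by abel
    rw [h6]
    exact Submodule.add_mem_sup (Submodule.subset_span ⟨b, hb, rfl⟩) h5

end sum

end Pool.Agent.H854.FE
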