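import Pool.Agent.H854.FE.Coh

set_option autoImplicit false
set_option maxHeartbeats 1000000

/-!
# Smooth varieties, the geometric Galois group
-/

open CategoryTheory Limits AlgebraicGeometry Pool.Agent.Y135

namespace Pool.Agent.H854.FE

/-- The field `K` is finitely generated over its prime field. -/
def IsFG (K : Type) [Field K] : Prop :=
  ∃ s : Finset K, Subfield.closure (s : Set K) = ⊤

/-- `f : X ⟶ Spec K` is a smooth variety of dimension `n`: an integral scheme, separated, of finite
type and smooth of relative dimension `n` over `K`. -/
class IsVar {K : Type} [Field K] {X : Scheme.{0}} (n : ℕ) (f : X ⟶ Spec (.of K)) : Prop where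
  integral : IsIntegral X
  smooth : SmoothOfRelativeDimension n f
  separated : IsSeparated f
  quasiCompact : QuasiCompact f

/-- An element of the Galois group as an automorphism of the algebraic closure. -/
def AbsGal.aut {K : Type} [Field K] (σ : AbsGal K) :
    AlgebraicClosure K ≃ₐ[K] AlgebraicClosure K := σ

theorem aut_mul {K : Type} [Field K] (σ τ : AbsGal K) (x : AlgebraicClosure K) :
    (σ * τ).aut x = σ.aut (τ.aut x) := rfl

theorem aut_inv {K : Type} [Field K] (σ : AbsGal K) (x : AlgebraicClosure K) :
    σ⁻¹.aut x = σ.aut.symm x := rfl

/-- The geometric Galois group of a field of positive characteristic: the elements of the Galois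
group that fix the roots of unity, i.e. the algebraic closure of the prime field. -/
def geomGal (K : Type) [Field K] : Subgroup (AbsGal K) where
  carrier := {σ | ∀ (x : AlgebraicClosure K) (m : ℕ), 0 < m → x ^ m = 1 → σ.aut x = x}
  mul_mem' := fun {a b} ha hb x m hm hx => by
    rw [aut_mul, hb x m hm hx, ha x m hm hx]
  one_mem' := fun x m hm hx => rfl
  inv_mem' := fun {a} ha x m hm hx => by
    rw [aut_inv, AlgEquiv.symm_apply_eq]
    exact (ha x m hm hx).symm

end Pool.Agent.H854.FE
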