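import Pool.Agent.H854.FE.CohLem
import Pool.Agent.H854.FE.Var
import Pool.Agent.H854.FE.Lin

set_option autoImplicit false
set_option maxHeartbeats 1000000

/-!
# Open subvarieties, the geometric Galois group
-/

open CategoryTheory Limits AlgebraicGeometry Pool.Agent.Y135

namespace Pool.Agent.H854.FE

theorem IsVar.open {K : Type} [Field K] {X : Scheme.{0}} (n : ℕ) (f : X ⟶ Spec (.of K))
    [hf : IsVar n f] (V : X.Opens) [hV : Nonempty V] : IsVar n (V.ι ≫ f) := by
  have h1 := hf.integral
  have h2 := hf.smooth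
  have h3 := hf.separated
  have h4 := hf.quasiCompact
  have h5 : SmoothOfRelativeDimension (0 + n) (V.ι ≫ f) := inferInstance
  rw [zero_add] at h5
  have h8 : Smooth f := SmoothOfRelativeDimension.smooth n f
  have h6 : LocallyOfFiniteType f := inferInstance
  have h7 : IsLocallyNoetherian X := LocallyOfFiniteType.isLocallyNoetherian f
  exact { integral := isIntegral_of_isOpenImmersion V.ι
          smooth := h5
          separated := inferInstance
          quasiCompact := inferInstance }

theorem geomInt_open {K : Type} [Field K] {X : Scheme.{0}} (f : X ⟶ Spec (.of K))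
    [hf : GeometricallyIntegral f] (V : X.Opens) [hV : Nonempty V] :
    GeometricallyIntegral (V.ι ≫ f) := by
  constructor
  intro L _ y Z a b hZ
  have h1 : IsIntegral (pullback f y) :=
    hf.geometrically_isIntegral y _ _ (IsPullback.of_hasPullback f y)
  let t : Z ⟶ pullback f y := pullback.lift (a ≫ V.ι) b (by rw [Category.assoc, hZ.w])
  have ht1 : t ≫ pullback.fst f y = a ≫ V.ι := pullback.lift_fst _ _ _
  have ht2 : t ≫ pullback.snd f y = b := pullback.lift_snd _ _ _
  have h2 : IsPullback t a (pullback.fst f y) V.ι := by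
    refine IsPullback.of_right (h₁₂ := pullback.snd f y) (h₂₂ := f) (v₁₃ := y) ?_ ht1
      (IsPullback.of_hasPullback f y).flip
    rw [ht2]
    exact hZ.flip
  have h3 : IsOpenImmersion t :=
    MorphismProperty.of_isPullback (P := @IsOpenImmersion) h2.flip inferInstance
  have h4 : Surjective y := by
    refine ⟨fun x => ?_⟩
    obtain ⟨z⟩ : Nonempty (Spec (.of L)) := inferInstance
    have : Subsingleton (Spec (.of K)) := inferInstanceAs (Subsingleton (PrimeSpectrum K))
    exact ⟨z, Subsingleton.elim _ _⟩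
  have h5 : Surjective a := MorphismProperty.of_isPullback (P := @Surjective) hZ.flip h4
  obtain ⟨v⟩ := hV
  obtain ⟨z, -⟩ := h5.surj v
  have h6 : Nonempty Z := ⟨z⟩
  exact isIntegral_of_isOpenImmersion t

theorem geomGal_normal (K : Type) [Field K] : (geomGal K).Normal := by
  constructor
  intro n hn g
  change ∀ (x : AlgebraicClosure K) (m : ℕ), 0 < m → x ^ m = 1 → (g * n * g⁻¹).aut x = x
  intro x m hm hx
  have h1 : (g.aut.symm x) ^ m = 1 := by rw [← map_pow, hx, map_one]
  have h2 : n.aut (g.aut.symm x) = g.aut.symm x := hn _ m hm h1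
  rw [aut_mul, aut_mul, aut_inv, h2, AlgEquiv.apply_symm_apply]

theorem gal_pow (K : Type) [Field K] (σ : AlgebraicClosure K ≃ₐ[K] AlgebraicClosure K)
    (x : AlgebraicClosure K) (m : ℕ) (hm : 0 < m) (hx : x ^ m = 1) : ∃ a : ℕ, σ x = x ^ a := by
  have : NeZero m := ⟨hm.ne'⟩
  exact map_rootsOfUnity_eq_pow_self σ.toAlgHom (rootsOfUnity.mkOfPowEq x hx)

theorem geomGal_comm (K : Type) [Field K] (σ τ : AbsGal K) :
    σ * τ * (τ * σ)⁻¹ ∈ geomGal K := by
  change ∀ (x : AlgebraicClosure K) (m : ℕ), 0 < m → x ^ m = 1 →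
    (σ * τ * (τ * σ)⁻¹).aut x = x
  intro x m hm hx
  have h1 : ((τ * σ).aut.symm x) ^ m = 1 := by rw [← map_pow, hx, map_one]
  obtain ⟨a, ha⟩ := gal_pow K σ.aut _ m hm h1
  obtain ⟨b, hb⟩ := gal_pow K τ.aut _ m hm h1
  have h2 : (σ * τ).aut ((τ * σ).aut.symm x) = (τ * σ).aut ((τ * σ).aut.symm x) := by
    rw [aut_mul, aut_mul, ha, hb, map_pow, map_pow, ha, hb, ← pow_mul, ← pow_mul, mul_comm]
  rw [aut_mul, aut_inv, h2, AlgEquiv.apply_symm_apply]

end Pool.Agent.H854.FE
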