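import Pool.Agent.H854.FE.Facts
import Pool.Agent.H854.FE.VarLem
import Pool.Graph.R_pool_sql_team_seeded_1acbe0a2.Y135.SchA

set_option autoImplicit false
set_option maxHeartbeats 1000000

/-!
# The reduction to finite étale coverings of affine space
-/

open CategoryTheory Limits AlgebraicGeometry Pool.Agent.Y135 Pool.Agent.Y135.RF

namespace Pool.Agent.H854.FE

section supp
variable {ℓ : ℕ} [Fact ℓ.Prime] {K : Type} [Field K] {X : Scheme.{0}} {f : X ⟶ Spec (.of K)}

theorem resO_of_le {V W : X.Opens} (h : V ≤ W) {i : ℕ} {v : HH ℓ f i} (hv : resO f W i v = 0) :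
    resO f V i v = 0 := by
  have h1 : X.homOfLE h ≫ (W.ι ≫ f) = V.ι ≫ f := by
    rw [← Category.assoc, Scheme.homOfLE_ι]
  have h2 := restr_comp (ℓ := ℓ) W.ι (rfl : W.ι ≫ f = W.ι ≫ f) (X.homOfLE h) h1 V.ι rfl
    (Scheme.homOfLE_ι X h).symm i v
  have h3 : restr W.ι (rfl : W.ι ≫ f = W.ι ≫ f) i v = 0 := hv
  rw [h3, map_zero] at h2
  exact h2

theorem res_image (U : X.Opens) {g : (U : Scheme.{0}) ⟶ Spec (.of K)} (e : U.ι ≫ f = g)
    (W : (U : Scheme.{0}).Opens) {i : ℕ} {v : HH ℓ f i}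
    (hv : resO g W i (restr U.ι e i v) = 0) : resO f (U.ι ''ᵁ W) i v = 0 := by
  subst e
  let V : X.Opens := U.ι ''ᵁ W
  have hr : Set.range V.ι ⊆ Set.range (W.ι ≫ U.ι) := by
    intro x hx
    rw [Scheme.Opens.range_ι] at hx
    obtain ⟨y, hy, rfl⟩ := hx
    exact ⟨⟨y, hy⟩, rfl⟩
  let t : (V : Scheme.{0}) ⟶ (W : Scheme.{0}) := IsOpenImmersion.lift (W.ι ≫ U.ι) V.ι hr
  have ht : t ≫ (W.ι ≫ U.ι) = V.ι := IsOpenImmersion.lift_fac _ _ _
  have h0 : IsOpenImmersion (t ≫ (W.ι ≫ U.ι)) := by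
    rw [ht]
    infer_instance
  have h1 : IsOpenImmersion t := IsOpenImmersion.of_comp t (W.ι ≫ U.ι)
  have e1 : (W.ι ≫ U.ι) ≫ f = W.ι ≫ (U.ι ≫ f) := Category.assoc _ _ _
  have e2 : t ≫ (W.ι ≫ (U.ι ≫ f)) = V.ι ≫ f := by
    rw [← e1, ← Category.assoc, ht]
  have h2 := restr_comp (ℓ := ℓ) (W.ι ≫ U.ι) e1 t e2 V.ι rfl ht.symm i v
  have h3 := restr_comp (ℓ := ℓ) U.ι (rfl : U.ι ≫ f = U.ι ≫ f) W.ι rfl (W.ι ≫ U.ι) e1 rfl i v
  have h4 : restr W.ι (rfl : W.ι ≫ (U.ι ≫ f) = W.ι ≫ (U.ι ≫ f)) i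
    (restr U.ι (rfl : U.ι ≫ f = U.ι ≫ f) i v) = 0 := hv
  rw [h4] at h3
  rw [h3, map_zero] at h2
  exact h2

theorem supp_zero (i c : ℕ) : Supp f i c (0 : HH ℓ f i) :=
  ⟨⊤, fun _ hx => absurd trivial hx, map_zero _⟩

theorem Supp.add {i c : ℕ} {v w : HH ℓ f i} (hv : Supp f i c v) (hw : Supp f i c w) :
    Supp f i c (v + w) := by
  obtain ⟨V, h1, h2⟩ := hv
  obtain ⟨W, h3, h4⟩ := hw
  refine ⟨V ⊓ W, fun x hx => ?_, ?_⟩
  · by_cases hxV : x ∈ V
    · exact h3 x fun hxW => hx ⟨hxV, hxW⟩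
    · exact h1 x hxV
  · rw [map_add, resO_of_le inf_le_left h2, resO_of_le inf_le_right h4, add_zero]

theorem Supp.smul {i c : ℕ} {v : HH ℓ f i} (hv : Supp f i c v) (r : PadicAlgCl ℓ) :
    Supp f i c (r • v) := by
  obtain ⟨V, h1, h2⟩ := hv
  exact ⟨V, h1, by rw [map_smul, h2, smul_zero]⟩

variable (ℓ f) in
/-- The classes supported in codimension `c` form a subspace. -/
noncomputable def suppSub (i c : ℕ) : Submodule (PadicAlgCl ℓ) (HH ℓ f i) where
  carrier := {v | Supp f i c v}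
  add_mem' := fun ha hb => ha.add hb
  zero_mem' := supp_zero i c
  smul_mem' := fun r _ ha => ha.smul r

theorem supp_uniform {i c : ℕ} (s : Finset (HH ℓ f i)) (hs : ∀ v ∈ s, Supp f i c v) :
    ∃ V : X.Opens, CodimGE V c ∧
      ∀ v ∈ s, resO f V i v = 0 := by
  classical
  induction s using Finset.induction_on with
  | empty => exact ⟨⊤, fun _ hx => absurd trivial hx, by simp⟩
  | insert a s ha ih =>
    obtain ⟨V, h1, h2⟩ := ih fun v hv => hs v (Finset.mem_insert_of_mem hv)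
    obtain ⟨W, h3, h4⟩ := hs a (Finset.mem_insert_self a s)
    refine ⟨V ⊓ W, fun x hx => ?_, fun v hv => ?_⟩
    · by_cases hxV : x ∈ V
      · exact h3 x fun hxW => hx ⟨hxV, hxW⟩
      · exact h1 x hxV
    · rcases Finset.mem_insert.mp hv with rfl | hv
      · exact resO_of_le inf_le_right h4
      · exact resO_of_le inf_le_left (h2 v hv)

theorem supp_of_open (U : X.Opens) {i c : ℕ}
    (hU : CodimGE U c) {v : HH ℓ f i}
    (hv : Supp (U.ι ≫ f) i c (resO f U i v)) : Supp f i c v := by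
  obtain ⟨W, h1, h2⟩ := hv
  refine ⟨U.ι ''ᵁ W, fun x hx => ?_, res_image U rfl W h2⟩
  by_cases hxU : x ∈ U
  · have h3 : (⟨x, hxU⟩ : U) ∉ W := fun h => hx ⟨⟨x, hxU⟩, h, rfl⟩
    have h4 := h1 ⟨x, hxU⟩ h3
    exact h4.trans_eq (coheight_eq_of_isOpenImmersion (x := (⟨x, hxU⟩ : (U : Scheme.{0}))) U.ι).symm
  · exact hU x hxU

theorem one_le_coheight [IsIntegral X] {V : X.Opens} (hV : Nonempty V) (x : X) (hx : x ∉ V) :
    ((1 : ℕ) : ℕ∞) ≤ Order.coheight x := by
  rw [Nat.cast_one, Order.one_le_iff_ne_zero]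
  intro h0
  have h1 : IsMax x := Order.coheight_eq_zero.mp h0
  have h2 : genericPoint X ≤ x := h1 (le_top (α := X))
  have h3 : x ⤳ genericPoint X := h2
  exact hx (h3.mem_open V.isOpen (((genericPoint_spec X).mem_open_set_iff V.isOpen).mpr
    (by simpa using (inferInstance : Nonempty V))))

theorem nonempty_of_codim [IsIntegral X] {V : X.Opens} {c : ℕ} (hc : 1 ≤ c)
    (hV : CodimGE V c) : Nonempty V := by
  by_contra hn
  have h1 : genericPoint X ∉ V := fun h => hn ⟨⟨_, h⟩⟩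
  have h2 := hV _ h1
  have h3 : Order.coheight (genericPoint X) = 0 := Order.coheight_top (α := X)
  rw [h3] at h2
  have h4 : c ≤ 0 := by exact_mod_cast h2
  omega

end supp

section main
variable {p ℓ : ℕ} [Fact p.Prime] [Fact ℓ.Prime]

/-- If the conjecture is true in codimension `i`, then no class outside the Tate classes is a Tate
class modulo the Tate classes. -/
theorem socle {C : ∀ (K : Type) [Field K], Prop} (F : BasicFacts p ℓ C) {i : ℕ} (hi : 1 ≤ i)
    {K : Type} [Field K] [CharP K p] (n : ℕ)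
    (hT : ∀ (X : Scheme.{0}) (f : X ⟶ Spec (.of K)) [IsVar n f], TateConj ℓ f i)
    {X : Scheme.{0}} (f : X ⟶ Spec (.of K)) [hf : IsVar n f] (hK : C K) :
    SemisimpleAt ℓ f i := by
  intro v hv
  have hfin := F.finite K X f n i hK
  have hint := hf.integral
  obtain ⟨s, hs⟩ : (tw ℓ f i).invariants.FG := IsNoetherian.noetherian _
  obtain ⟨U, hU1, hU2⟩ := supp_uniform (ℓ := ℓ) (f := f) (c := i) s (fun w hw =>
    hT X f w (by
      have : w ∈ (tw ℓ f i).invariants := hs ▸ Submodule.subset_span hw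
      exact this))
  have hU3 : ∀ w, IsTate ℓ f i w → resO f U i w = 0 := by
    intro w hw
    have hw' : w ∈ (tw ℓ f i).invariants := hw
    rw [← hs] at hw'
    have h1 : Submodule.span (PadicAlgCl ℓ) (s : Set (HH ℓ f i)) ≤
        LinearMap.ker (resO f U i) := Submodule.span_le.mpr hU2
    exact h1 hw'
  have hUn : Nonempty U := nonempty_of_codim hi hU1
  have hUv : IsVar n (U.ι ≫ f) := IsVar.open n f U
  have h1 : IsTate ℓ (U.ι ≫ f) i (resO f U i v) := by
    intro σ
    have h2 : tw ℓ f i σ v = v + (tw ℓ f i σ v - v) := by abel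
    have h3 : resO f U i (tw ℓ f i σ v - v) = 0 := hU3 _ (hv σ)
    have h4 : tw ℓ (U.ι ≫ f) i σ (resO f U i v) = resO f U i (tw ℓ f i σ v) :=
      (restr_tw U.ι rfl i σ v).symm
    rw [h4, h2, map_add, h3, add_zero]
  have h2 : Supp f i i v := supp_of_open U hU1 (hT U (U.ι ≫ f) _ h1)
  intro σ
  obtain ⟨m, hm, hmv⟩ := F.purity K X f n i hK v h2 σ
  have h3 : ∀ m : ℕ, tw ℓ f i (σ ^ m) v = v + (m : PadicAlgCl ℓ) • (tw ℓ f i σ v - v) := by
    intro m
    induction m with
    | zero => simp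
    | succ m ih =>
      rw [pow_succ', map_mul, Module.End.mul_apply, ih, map_add, map_smul, hv σ σ]
      rw [Nat.cast_succ, add_smul, one_smul]
      abel
  rw [h3 m] at hmv
  have h4 : (m : PadicAlgCl ℓ) • (tw ℓ f i σ v - v) = 0 := by
    rwa [add_eq_left] at hmv
  have h5 : (m : PadicAlgCl ℓ) ≠ 0 := Nat.cast_ne_zero.mpr hm.ne'
  exact sub_eq_zero.mp ((smul_eq_zero.mp h4).resolve_left h5)

theorem li_proj (F : KnownFacts p ℓ) {i : ℕ} (hi : 1 ≤ i) (hT : TateAll p ℓ i) {K : Type} [Field K]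
    [CharP K p] {X : Scheme.{0}} (f : X ⟶ Spec (.of K)) (n : ℕ) [hf : IsVar n f]
    (hp : IsProjectiveMor f) (hK : IsFG K) : LI (tw ℓ f i) := by
  have hfin := F.finite K X f n i hK
  exact lift_rep (tw ℓ f i) (geomGal K) (geomGal_normal K) (geomGal_comm K)
    (F.deligne K X f n i hK hp)
    (fun v hv => socle F.toBasicFacts hi n (fun X f _ => hT n K X f hK) f hK v hv)

/-- The argument with the Gysin maps: a Tate class that vanishes on a non-empty open subset is
supported in codimension `i + 1` if the varieties `D a` have the lifting property and satisfy the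
conjecture in codimension `i`. -/
theorem gysin_step {C : ∀ (K : Type) [Field K], Prop} (F : BasicFacts p ℓ C) (i n : ℕ)
    (hD : ∀ (K : Type) [Field K] [CharP K p] (D : Scheme.{0}) (d : D ⟶ Spec (.of K)) (n' : ℕ)
      [IsVar n' d], n' + 1 = n → IsProjectiveMor d → C K → LI (tw ℓ d i) ∧ TateConj ℓ d i)
    {K : Type} [Field K] [CharP K p] (hK : C K) {X : Scheme.{0}} (f : X ⟶ Spec (.of K))
    [hX : IsVar n f] (V : X.Opens) [Nonempty V] (v : HH ℓ f (i + 1)) (hv : IsTate ℓ f (i + 1) v)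
    (hV : resO f V (i + 1) v = 0) : Supp f (i + 1) (i + 1) v := by
  obtain ⟨K₂, _, _, X₂, f₂, e₂, m, D, d, γ, hK₂, he, hDa, hγ⟩ := F.gysin K X f n i V hK
  refine he.2 v hv ?_
  obtain ⟨w, hw⟩ := hγ v hv hV
  have h1 : e₂ v ∈ ⨆ a ∈ (Finset.univ : Finset (Fin m)), LinearMap.range (γ a) := by
    rw [hw]
    refine Submodule.sum_mem _ fun a _ => ?_
    have h2 : LinearMap.range (γ a) ≤
        ⨆ a ∈ (Finset.univ : Finset (Fin m)), LinearMap.range (γ a) :=
      le_iSup₂_of_le a (Finset.mem_univ a) le_rfl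
    exact h2 ⟨w a, rfl⟩
  have h2 := sum_lift (fun a => tw ℓ (d a) i) (fun a => by
    obtain ⟨n', hn', hv', hp', -⟩ := hDa a
    exact (hD K₂ (D a) (d a) n' hn' hp' hK₂).1) (tw ℓ f₂ (i + 1)) γ
    (fun a => (hDa a).choose_spec.2.2.2.1) Finset.univ (e₂ v) (he.1 v hv) h1
  have h3 : (⨆ a ∈ (Finset.univ : Finset (Fin m)),
      Submodule.span (PadicAlgCl ℓ) {x | ∃ b, (∀ σ, tw ℓ (d a) i σ b = b) ∧ γ a b = x}) ≤
      suppSub ℓ f₂ (i + 1) (i + 1) := by
    refine iSup₂_le fun a _ => Submodule.span_le.mpr ?_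
    rintro _ ⟨b, hb, rfl⟩
    obtain ⟨n', hn', hv', hp', hg'⟩ := hDa a
    exact hg'.2 b ((hD K₂ (D a) (d a) n' hn' hp' hK₂).2 b hb)
  exact h3 h2

theorem charP_ratField (p r : ℕ) [Fact p.Prime] : CharP (RatField p r) p := by
  have : CharP (FractionRing (MvPolynomial (Fin r) (ZMod p))) p :=
    charP_of_injective_algebraMap (IsFractionRing.injective (MvPolynomial (Fin r) (ZMod p))
      (FractionRing (MvPolynomial (Fin r) (ZMod p)))) p
  exact this

theorem isFG_fractionRing (p r : ℕ) [Fact p.Prime] :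
    IsFG (FractionRing (MvPolynomial (Fin r) (ZMod p))) := by
  classical
  let A := MvPolynomial (Fin r) (ZMod p)
  let s : Finset (FractionRing A) := Finset.univ.image fun i : Fin r =>
    algebraMap A (FractionRing A) (MvPolynomial.X i)
  refine ⟨s, ?_⟩
  rw [eq_top_iff]
  intro x _
  have h1 : ∀ a : A, algebraMap A (FractionRing A) a ∈
      Subfield.closure (s : Set (FractionRing A)) := by
    intro a
    induction a using MvPolynomial.induction_on with
    | C c =>
      have h2 : (MvPolynomial.C c : A) = ((c.val : ℕ) : A) := by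
        rw [← map_natCast (MvPolynomial.C : ZMod p →+* A), ZMod.natCast_zmod_val]
      change algebraMap A (FractionRing A) (MvPolynomial.C c : A) ∈ _
      rw [h2, map_natCast]
      exact natCast_mem _ _
    | add a b ha hb =>
      rw [map_add]
      exact add_mem ha hb
    | mul_X a i ha =>
      rw [map_mul]
      refine mul_mem ha (Subfield.subset_closure ?_)
      simp only [s, Finset.coe_image, Finset.coe_univ, Set.image_univ]
      exact ⟨i, rfl⟩
  obtain ⟨a, b, hb, rfl⟩ := IsFractionRing.div_surjective (A := A) x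
  exact div_mem (h1 a) (h1 b)

theorem isFG_ratField (p r : ℕ) [Fact p.Prime] : IsFG (RatField p r) := isFG_fractionRing p r

/-- The middle dimension. -/
theorem middle (F : KnownFacts p ℓ) (i : ℕ) (hT : 1 ≤ i → TateAll p ℓ i)
    (hC : CoverVanishing p ℓ (i + 1)) : TateDim p ℓ (i + 1) (2 * (i + 1)) := by
  intro K _ _ X f _ hK v hv
  obtain ⟨r, X', f', hX', e, he1, he2⟩ := F.induction K X f (2 * (i + 1)) (i + 1) hK
  have := charP_ratField p r
  refine he2 v hv ?_
  have hv' := he1 v hv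
  generalize e v = v' at hv' ⊢
  have hint := hX'.integral
  have hsm := hX'.smooth
  obtain ⟨V₀, hV₀, g, hg, hg1, hg2⟩ :=
    exists_open_finite_etale p (2 * (i + 1)) (RatField p r) X' f'
  have hgi : IsIntegral (V₀ : Scheme.{0}) := isIntegral_of_isOpenImmersion V₀.ι
  obtain ⟨W, hW, hW1⟩ := hC r V₀ g (restr V₀.ι hg.symm (i + 1) v') (fun σ => by
    rw [← restr_tw, hv' σ])
  have hV1 := res_image V₀ hg.symm W hW1
  set V : X'.Opens := V₀.ι ''ᵁ W with hV
  have hVn : Nonempty V := by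
    obtain ⟨w⟩ := hW
    exact ⟨⟨_, w.1, w.2, rfl⟩⟩
  have hV2 : Supp f' (i + 1) 1 v' := ⟨V, one_le_coheight hVn, hV1⟩
  rcases Nat.eq_zero_or_pos i with hi | hi
  · subst hi
    exact hV2
  exact gysin_step F.toBasicFacts i (2 * (i + 1)) (fun K _ _ D d n' _ _ hp hK =>
    ⟨li_proj F hi (hT hi) d n' hp hK, hT hi n' K D d hK⟩) (isFG_ratField p r) f' V v' hv' hV1

theorem tateDim_up (F : KnownFacts p ℓ) (i n : ℕ) (hn : 2 * i ≤ n) (h : TateDim p ℓ i n) :
    TateDim p ℓ i (n + 1) := by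
  intro K _ _ X f _ hK v hv
  obtain ⟨K', _, _, X', f', hK', hX', e, he1, he2⟩ := F.hyperplane K X f n i hK hn
  exact he2 v hv (h K' X' f' hK' _ (he1 v hv))

theorem tateDim_down (F : KnownFacts p ℓ) (i n : ℕ) (h : TateDim p ℓ i (n + 1)) :
    TateDim p ℓ i n := by
  intro K _ _ X f _ hK v hv
  obtain ⟨X', f', hX', e, he1, he2⟩ := F.product K X f n i hK
  exact he2 v hv (h K X' f' hK _ (he1 v hv))

theorem tateAll_of_middle (F : KnownFacts p ℓ) (i : ℕ) (h : TateDim p ℓ i (2 * i)) :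
    TateAll p ℓ i := by
  intro n
  rcases le_total (2 * i) n with hn | hn
  · induction n, hn using Nat.le_induction with
    | base => exact h
    | succ n hn ih => exact tateDim_up F i n hn ih
  · obtain ⟨m, hm⟩ := Nat.exists_eq_add_of_le hn
    rw [hm] at h
    clear hm hn
    induction m with
    | zero => exact h
    | succ m ih => exact ih (tateDim_down F i (n + m) h)

theorem tateAll_step (F : KnownFacts p ℓ) (i : ℕ) (hT : 1 ≤ i → TateAll p ℓ i)
    (hC : CoverVanishing p ℓ (i + 1)) : TateAll p ℓ (i + 1) :=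
  tateAll_of_middle F (i + 1) (middle F i hT hC)

theorem isVar_cover {K : Type} [Field K] {U : Scheme.{0}} (n : ℕ) (g : U ⟶ affSp K n)
    [hU : IsIntegral U] [Etale g] [IsFinite g] : IsVar n (g ≫ affStr K n) := by
  have h1 := smooth_affineSpace n K
  have h2 : SmoothOfRelativeDimension (0 + n) (g ≫ affStr K n) := inferInstance
  rw [zero_add] at h2
  exact { integral := hU
          smooth := h2
          separated := inferInstance
          quasiCompact := inferInstance }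

theorem cover_of_tateAll {i : ℕ} (hi : 1 ≤ i) (hT : TateAll p ℓ i) : CoverVanishing p ℓ i := by
  intro r U g _ _ _ v hv
  have h1 := isVar_cover (2 * i) g
  have := charP_ratField p r
  obtain ⟨W, hW1, hW2⟩ := hT (2 * i) (RatField p r) U (g ≫ affStr (RatField p r) (2 * i))
    (isFG_ratField p r) v hv
  exact ⟨W, nonempty_of_codim hi hW1, hW2⟩

/-- The reduction of the conjectures `T^i` to finite étale coverings of affine spaces. -/
theorem main (F : KnownFacts p ℓ) (N : ℕ) :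
    (∀ i, 1 ≤ i → i ≤ N → TateAll p ℓ i) ↔ (∀ i, 1 ≤ i → i ≤ N → CoverVanishing p ℓ i) := by
  refine ⟨fun h i hi hN => cover_of_tateAll hi (h i hi hN), fun h i hi hN => ?_⟩
  induction i with
  | zero => omega
  | succ i ih =>
    exact tateAll_step F i (fun hi' => ih hi' (by omega)) (h (i + 1) hi hN)

end main

end Pool.Agent.H854.FE
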